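import Pool.Agent.Lib.MP_ec58cd_gt.Main
import Pool.Agent.Lib.MP_ec58cd_gt.Energy

/-!
# An embedded sphere with `∫ |H|² < 8 π²` which does not flow to a point

There is a smooth embedding `f : S² → ℝ³` with `∫ |H|² < 78.8 < 8 π²` such that the mean curvature
flow starting at `f` does not shrink to a point, let alone to a round point.
-/

set_option autoImplicit false

namespace Pool.Agent.Results.MP_ec58cd_gt.ThresholdBelowWillmore

open Pool.Agent.Lib.MP_ec58cd_gt

/-- The conjectured threshold `8 π²` for convergence to a round point (`n = 2`, `q = 1`) fails, already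
for embedded spheres. -/
theorem result : ∃ f : S2 → E3, IsImm 2 f ∧ Function.Injective f ∧
    energy f < ENNReal.ofReal 78.8 ∧ (78.8 : ℝ) < 8 * Real.pi ^ 2 ∧ ¬ FlowsToPoint 2 f := by
  refine ⟨f0, isImm_f0, f0_injective, energy_f0, ?_, not_flowsToPoint⟩
  have h := Real.pi_gt_d4
  nlinarith

end Pool.Agent.Results.MP_ec58cd_gt.ThresholdBelowWillmore
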